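import Pool.Agent.H66.XP.TH
import Pool.Agent.H16.IP.SPF

/-!
Row EXY of the board xpm_modules: the exact algorithm outputs the answer of a good instance.
-/

set_option autoImplicit false

namespace Pool.Agent.H63.XP

open Finset Pool.Agent.H6.NB Pool.Agent.H70.OQ Pool.Agent.H70.EH Pool.Agent.H70.EI Pool.Agent.H78.XQ
open Pool.Agent.H66.IP (Local ins sp dm IsZ scl)
open Pool.Agent.H66.IQ Pool.Agent.H66.AV Pool.Agent.H66.XP
open Pool.Agent.H75.OM (BPos)

/-- EXY -/
theorem pf_EXY (hEXA : Pool.Agent.H78.XQ.T_EXA) : T_EXY := by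
  intro V i x O hg
  unfold GoodX OkC at hg
  have he := hEXA O (sp (lo V) (i, x)) _ hg.2
  rw [Pool.Agent.H16.IP.sp_eq (lo V) (i, x)] at he
  change (exact (ins (V i).c i x)).prob O = _ at he
  constructor
  · intro hacc
    rw [he]
    simp [hacc]
  · intro hacc
    rw [he]
    simp [hacc]

end Pool.Agent.H63.XP
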