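import Pool.Agent.H66.XP.TH

/-!
Row GDX of the board xpm_modules: it depends on finitely many strings whether an instance is good.
-/

set_option autoImplicit false

namespace Pool.Agent.H63.XP

open Finset Pool.Agent.H6.NB Pool.Agent.H70.OQ Pool.Agent.H70.EH Pool.Agent.H70.EI Pool.Agent.H78.XQ
open Pool.Agent.H66.IP (Local ins sp dm IsZ scl)
open Pool.Agent.H66.IQ Pool.Agent.H66.AV Pool.Agent.H66.XP
open Pool.Agent.H75.OM (BPos)

theorem fin_ex {α β : Type} [Finite α] (f : α → β) : {w : β | ∃ x, w = f x}.Finite :=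
  (Set.finite_range f).subset fun w hw => by
    obtain ⟨x, hx⟩ := hw
    exact ⟨x, hx.symm⟩

theorem fin_ex3 {α β γ δ : Type} [Finite α] [Finite β] [Finite γ] (f : α → β → γ → δ) :
    {w : δ | ∃ u v b, w = f u v b}.Finite :=
  (Set.finite_range fun x : α × β × γ => f x.1 x.2.1 x.2.2).subset fun w hw => by
    obtain ⟨u, v, b, hw⟩ := hw
    exact ⟨(u, v, b), hw.symm⟩

/-- the output of a decision tree depends on the strings of bounded length -/
theorem eval_loc (T : DT) : ∃ L, ∀ O O' : List Bool → Bool,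
    (∀ w, w.length ≤ L → O w = O' w) → T.eval O = T.eval O' := by
  induction T with
  | leaf b => exact ⟨0, fun O O' _ => rfl⟩
  | node w l r hl hr =>
    obtain ⟨L1, h1⟩ := hl
    obtain ⟨L2, h2⟩ := hr
    refine ⟨max w.length (max L1 L2), fun O O' h => ?_⟩
    have e1 := h1 O O' fun v hv => h v (by omega)
    have e2 := h2 O O' fun v hv => h v (by omega)
    have e3 := h w (le_max_left _ _)
    simp only [DT.eval]
    rw [e1, e2, e3]

theorem pf_GDX' : T_GDX := by
  intro V p
  have hb : ∃ L, ∀ w, BPos (dm (lo V)) p w → w.length ≤ L := by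
    have hf : {w : List Bool | BPos (dm (lo V)) p w}.Finite := by
      unfold BPos
      exact (fin_ex3 _).union (fin_ex _)
    obtain ⟨L, hL⟩ := (hf.image List.length).bddAbove
    exact ⟨L, fun w hw => hL ⟨w, hw, rfl⟩⟩
  obtain ⟨L, hL⟩ := hb
  obtain ⟨L', hL'⟩ := eval_loc ((V p.1).tree p.2)
  refine ⟨max L L', fun O O' h hG => ?_⟩
  have h1 : ((V p.1).tree p.2).eval O = ((V p.1).tree p.2).eval O' :=
    hL' O O' fun w hw => h w (le_trans hw (le_max_right _ _))
  have h2 : cps O (sp (lo V) p) = cps O' (sp (lo V) p) := by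
    funext u v
    exact h _ (le_trans (hL _ (Or.inl ⟨u, v.2, v.1, rfl⟩)) (le_max_left _ _))
  have h3 : cst O (sp (lo V) p) = cst O' (sp (lo V) p) := by
    funext z
    exact h _ (le_trans (hL _ (Or.inr ⟨z, rfl⟩)) (le_max_left _ _))
  unfold GoodX at hG ⊢
  rw [← h1, ← h2, ← h3]
  exact hG

/-- GDX -/
theorem pf_GDX (_hQDP : T_QDP) : T_GDX := pf_GDX'

end Pool.Agent.H63.XP
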